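import Mathlib

/-!
# Large d-separating sets and toric Gaussian DAG ideals

If two vertices `i, j` of a DAG have a d-separating set and the smallest one has at least two
elements, then the vanishing ideal of the Gaussian DAG model is not toric.

Proof. Let `i` be no descendant of `j` and let `C` be the set of parents of `j`. The determinant of
the submatrix of `Σ` with rows `i, C` and columns `j, C` vanishes on the model. If the ideal is
generated by binomials, the term `σ_ij ∏ σ_cc` of this determinant is, up to a constant factor,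
congruent to another term. Both terms have the same zeros on the model; the model obtained by
isolating all vertices of `C` except the first one, `p`, that is met by a trek from `i` to `j`
shows that the other term must be `σ_ip σ_pj ∏_(c ≠ p) σ_cc`. So `σ_ij` vanishes at a point of the
model if and only if `σ_ip σ_pj` does. Applied to the models where all edges at `p`, or all edges
which leave `p`, are deleted, this gives that `{p}` d-separates `i` and `j`.
-/

set_option autoImplicit false

open Relation

namespace Pool.Agent.Results.MP_3a69bf_ag.LargeSeparators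

variable {V : Type*}

/-- No directed cycles: the directed graph with edge relation `E` is a DAG. -/
def Acyclic (E : V → V → Prop) : Prop := ∀ v, ¬ TransGen E v v

/-- `v 0, v 1, ..., v m` is a path from `a` to `b`: distinct vertices, consecutive ones are
joined by an edge of either direction. -/
structure IsPath (E : V → V → Prop) (a b : V) (m : ℕ) (v : ℕ → V) : Prop where
  start : v 0 = a
  stop : v m = b
  inj : Set.InjOn v (Set.Iic m)
  adj : ∀ l, l < m → E (v l) (v (l + 1)) ∨ E (v (l + 1)) (v l)

/-- The vertex `v l` is a collider of the path `v 0, ..., v m`: it is an interior vertex and both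
edges at it point into it. -/
def IsCollider (E : V → V → Prop) (m : ℕ) (v : ℕ → V) (l : ℕ) : Prop :=
  0 < l ∧ l < m ∧ E (v (l - 1)) (v l) ∧ E (v (l + 1)) (v l)

/-- The vertex `v l` is an interior vertex of the path `v 0, ..., v m` and not a collider. -/
def IsNonCollider (E : V → V → Prop) (m : ℕ) (v : ℕ → V) (l : ℕ) : Prop :=
  0 < l ∧ l < m ∧ ¬ (E (v (l - 1)) (v l) ∧ E (v (l + 1)) (v l))

/-- The set `C` d-separates `a` and `b`: every path from `a` to `b` has a non-collider in `C` or
has a collider such that neither it nor any descendant of it lies in `C`. -/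
def DSeparates (E : V → V → Prop) (C : Finset V) (a b : V) : Prop :=
  ∀ (m : ℕ) (v : ℕ → V), IsPath E a b m v →
    (∃ l, IsNonCollider E m v l ∧ v l ∈ C) ∨
    (∃ l, IsCollider E m v l ∧ ∀ x ∈ C, ¬ ReflTransGen E (v l) x)

section model

variable [Fintype V] [DecidableEq V]

/-- The covariance matrix `(I - L)^(-T) Ω (I - L)^(-1)`, where `Ω` is the diagonal matrix with
the entries `w`. -/
noncomputable def cov (L : Matrix V V ℝ) (w : V → ℝ) : Matrix V V ℝ :=
  ((1 - L)⁻¹).transpose * Matrix.diagonal w * (1 - L)⁻¹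

/-- The Gaussian DAG model; the coordinates `σ_uv` of a symmetric matrix are indexed by unordered
pairs `s(u, v)` (with `u = v` allowed). -/
def model (E : V → V → Prop) : Set (Sym2 V → ℝ) :=
  {y | ∃ (L : Matrix V V ℝ) (w : V → ℝ), (∀ u v, ¬ E u v → L u v = 0) ∧ (∀ v, 0 < w v) ∧
    ∀ u v, y s(u, v) = cov L w u v}

/-- The vanishing ideal `I_G` of the Gaussian DAG model. -/
noncomputable def gaussianIdeal (E : V → V → Prop) : Ideal (MvPolynomial (Sym2 V) ℝ) :=
  MvPolynomial.vanishingIdeal ℝ (model E)

end model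

/-- The ideal `I` is generated by binomials; here a binomial is any polynomial with at most two
terms (arbitrary coefficients, also a single monomial is allowed). -/
def GeneratedByBinomials {ι : Type*} (I : Ideal (MvPolynomial ι ℝ)) : Prop :=
  ∃ S : Set (MvPolynomial ι ℝ),
    (∀ f ∈ S, ∃ (a b : ℝ) (p q : ι →₀ ℕ),
      f = MvPolynomial.monomial p a + MvPolynomial.monomial q b) ∧ I = Ideal.span S

/-- A toric ideal: a prime ideal generated by binomials. -/
def IsToric {ι : Type*} (I : Ideal (MvPolynomial ι ℝ)) : Prop :=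
  I.IsPrime ∧ GeneratedByBinomials I

/-! ### Ideals generated by binomials -/

section binomial

open MvPolynomial

variable {ι : Type*}

/-- In an ideal generated by binomials every term, not in the ideal, of an element of the ideal is
congruent to a multiple of another term. -/
theorem exists_partner (I : Ideal (MvPolynomial ι ℝ)) (hI : GeneratedByBinomials I)
    (f : MvPolynomial ι ℝ) (hf : f ∈ I) (m : ι →₀ ℕ) (hm : f.coeff m ≠ 0)
    (hmI : monomial m (1 : ℝ) ∉ I) :
    ∃ m', m' ≠ m ∧ f.coeff m' ≠ 0 ∧ ∃ κ : ℝ, κ ≠ 0 ∧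
      monomial m (1 : ℝ) - monomial m' κ ∈ I := by
  classical
  -- the class of a monomial
  have hc : ∀ u : ι →₀ ℕ, ∃ c : ℝ, (c ≠ 0 → monomial u (1 : ℝ) - monomial m c ∈ I) ∧
      (∀ κ : ℝ, κ ≠ 0 → monomial u (1 : ℝ) - monomial m κ ∈ I → c = κ) := by
    intro u
    by_cases h : ∃ κ : ℝ, κ ≠ 0 ∧ monomial u (1 : ℝ) - monomial m κ ∈ I
    · obtain ⟨κ, hκ, h⟩ := h
      refine ⟨κ, fun _ => h, fun κ' _ h' => ?_⟩
      by_contra hne
      have h2 : monomial m (κ' - κ) ∈ I := by
        have := I.sub_mem h h'
        rwa [sub_sub_sub_cancel_left, ← map_sub] at this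
      have h3 := I.mul_mem_left (C ((κ' - κ)⁻¹)) h2
      rw [C_mul_monomial, inv_mul_cancel₀ (sub_ne_zero.2 (Ne.symm hne))] at h3
      exact hmI h3
    · refine ⟨0, fun h0 => absurd rfl h0, fun κ hκ h' => absurd ⟨κ, hκ, h'⟩ h⟩
  choose c hc1 hc2 using hc
  -- two-term elements of `I`
  have hinI : ∀ (a : ℝ) (p : ι →₀ ℕ), a ≠ 0 → monomial p a ∈ I → monomial p (1 : ℝ) ∈ I := by
    intro a p ha h
    have h3 := I.mul_mem_left (C (a⁻¹)) h
    rwa [C_mul_monomial, inv_mul_cancel₀ ha] at h3
  have hczero : ∀ p : ι →₀ ℕ, monomial p (1 : ℝ) ∈ I → c p = 0 := by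
    intro p hp
    by_contra h
    have h1 := hc1 p h
    have h2 : monomial m (c p) ∈ I := by
      have := I.sub_mem hp h1
      simpa using this
    exact hmI (hinI _ _ h h2)
  have key : ∀ (a b : ℝ) (p q : ι →₀ ℕ), monomial p a + monomial q b ∈ I →
      c q ≠ 0 → a * c p + b * c q = 0 := by
    intro a b p q h hq
    by_cases ha : a = 0
    · subst ha
      by_cases hb : b = 0
      · simp [hb]
      · rw [map_zero, zero_add] at h
        exact absurd (hczero q (hinI b q hb h)) hq
    · by_cases hb : b = 0
      · subst hb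
        rw [map_zero, add_zero] at h
        simp [hczero p (hinI a p ha h)]
      · -- `x_p = -(b/a) c_q x_m`
        have h1 := hc1 q hq
        have h2 : monomial p (1 : ℝ) - monomial m (-(b / a) * c q) ∈ I := by
          have e1 := I.mul_mem_left (C a⁻¹) h
          have e2 := I.mul_mem_left (C (b / a)) h1
          rw [mul_add, C_mul_monomial, C_mul_monomial, inv_mul_cancel₀ ha] at e1
          rw [mul_sub, C_mul_monomial, C_mul_monomial, mul_one] at e2
          have e3 := I.sub_mem e1 e2
          have e4 : a⁻¹ * b = b / a := by field_simp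
          rw [e4] at e3
          have e5 : (monomial p (1 : ℝ) + monomial q (b / a) -
              (monomial q (b / a) - monomial m (b / a * c q)) : MvPolynomial ι ℝ) =
              monomial p (1 : ℝ) - monomial m (-(b / a) * c q) := by
            rw [neg_mul, map_neg]; ring
          rwa [e5] at e3
        have h3 := hc2 p _ (mul_ne_zero (neg_ne_zero.2 (div_ne_zero hb ha)) hq) h2
        rw [h3]
        field_simp
        ring
  have key' : ∀ (a b : ℝ) (p q : ι →₀ ℕ), monomial p a + monomial q b ∈ I →
      a * c p + b * c q = 0 := by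
    intro a b p q h
    by_cases hq : c q = 0
    · by_cases hp : c p = 0
      · simp [hp, hq]
      · have := key b a q p (by rwa [add_comm]) hp
        linarith
    · exact key a b p q h hq
  -- the functional
  let L : MvPolynomial ι ℝ →ₗ[ℝ] ℝ := (basisMonomials ι ℝ).constr ℝ c
  have hL : ∀ (p : ι →₀ ℕ) (a : ℝ), L (monomial p a) = a * c p := by
    intro p a
    have h1 : (monomial p a : MvPolynomial ι ℝ) = a • monomial p (1 : ℝ) := by
      rw [smul_monomial, smul_eq_mul, mul_one]
    rw [h1, map_smul, smul_eq_mul]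
    congr 1
    have := (basisMonomials ι ℝ).constr_basis ℝ c p
    rwa [coe_basisMonomials] at this
  obtain ⟨S, hS, hIS⟩ := hI
  have hvan : ∀ g ∈ Ideal.span S, ∀ h : MvPolynomial ι ℝ, L (h * g) = 0 := by
    intro g hg
    induction hg using Submodule.span_induction with
    | mem x hx =>
      intro h
      obtain ⟨a, b, p, q, rfl⟩ := hS x hx
      have hxI : (monomial p a + monomial q b : MvPolynomial ι ℝ) ∈ I := by
        rw [hIS]; exact Ideal.subset_span hx
      induction h using MvPolynomial.induction_on' with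
      | monomial u r =>
        have h1 := I.mul_mem_left (monomial u r) hxI
        rw [mul_add, monomial_mul, monomial_mul] at h1 ⊢
        rw [map_add, hL, hL]
        exact key' _ _ _ _ h1
      | add f1 f2 h1 h2 => rw [add_mul, map_add, h1, h2, add_zero]
    | zero => intro h; simp
    | add x y _ _ hx hy => intro h; rw [mul_add, map_add, hx, hy, add_zero]
    | smul a x _ hx => intro h; rw [smul_eq_mul, ← mul_assoc]; exact hx _
  have hLf : L f = 0 := by
    have := hvan f (hIS ▸ hf) 1
    rwa [one_mul] at this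
  have hcm : c m = 1 := hc2 m 1 one_ne_zero (by simp)
  have hsum : L f = ∑ u ∈ f.support, f.coeff u * c u := by
    conv_lhs => rw [f.as_sum]
    rw [map_sum]
    exact Finset.sum_congr rfl fun u _ => hL u _
  rw [hsum] at hLf
  have hms : m ∈ f.support := mem_support_iff.2 hm
  rw [← Finset.add_sum_erase _ _ hms, hcm, mul_one] at hLf
  have hex : ∃ u ∈ f.support.erase m, f.coeff u * c u ≠ 0 := by
    by_contra hno
    push Not at hno
    rw [Finset.sum_eq_zero hno, add_zero] at hLf
    exact hm hLf
  obtain ⟨u, hu, hne⟩ := hex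
  rw [Finset.mem_erase] at hu
  have hcu : c u ≠ 0 := right_ne_zero_of_mul hne
  refine ⟨u, hu.1, left_ne_zero_of_mul hne, (c u)⁻¹, inv_ne_zero hcu, ?_⟩
  have h1 := I.mul_mem_left (C (-(c u)⁻¹)) (hc1 u hcu)
  rw [mul_sub, C_mul_monomial, C_mul_monomial, neg_mul, neg_mul, inv_mul_cancel₀ hcu,
    mul_one] at h1
  have e5 : (monomial u (-(c u)⁻¹) - monomial m (-1) : MvPolynomial ι ℝ) =
      monomial m 1 - monomial u (c u)⁻¹ := by
    rw [map_neg, map_neg]; ring
  rwa [e5] at h1

end binomial

/-! ### Paths -/

section paths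

variable {E : V → V → Prop}

/-- The edges of `E` avoiding `W`. -/
def Av (E : V → V → Prop) (W : Set V) (u v : V) : Prop := E u v ∧ u ∉ W ∧ v ∉ W

theorem rmono {R R' : V → V → Prop} (h : ∀ u v, R u v → R' u v) {a b : V}
    (hr : ReflTransGen R a b) : ReflTransGen R' a b := by
  induction hr with
  | refl => exact .refl
  | tail _ h2 ih => exact ih.tail (h _ _ h2)

/-- `T R a b`: `a` and `b` have a common ancestor (possibly one of them) in `R`. -/
def T (R : V → V → Prop) (a b : V) : Prop := ∃ s, ReflTransGen R s a ∧ ReflTransGen R s b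

theorem T_refl (R : V → V → Prop) (a : V) : T R a a := ⟨a, .refl, .refl⟩

theorem T_symm {R : V → V → Prop} {a b : V} (h : T R a b) : T R b a := by
  obtain ⟨s, h1, h2⟩ := h; exact ⟨s, h2, h1⟩

theorem T_mono {R R' : V → V → Prop} (h : ∀ u v, R u v → R' u v) {a b : V} (hT : T R a b) :
    T R' a b := by
  obtain ⟨s, h1, h2⟩ := hT
  exact ⟨s, rmono h h1, rmono h h2⟩

/-- An isolated vertex. -/
theorem T_isolated {W : Set V} {a p : V} (hp : p ∈ W) (h : T (Av E W) a p) : a = p := by
  obtain ⟨s, h1, h2⟩ := h
  have hs : s = p := by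
    rcases h2.cases_tail with h | ⟨t, _, ht⟩
    · exact h.symm
    · exact absurd hp ht.2.2
  subst hs
  rcases h1.cases_head with h | ⟨t, ht, _⟩
  · exact h.symm
  · exact absurd hp ht.2.1

/-- Paths without colliders avoiding `W`. -/
theorem state (W : Set V) (v : ℕ → V) (m : ℕ)
    (hadj : ∀ l, l < m → E (v l) (v (l + 1)) ∨ E (v (l + 1)) (v l))
    (hcol : ∀ l, ¬ IsCollider E m v l) (hW : ∀ l, l ≤ m → v l ∉ W) :
    ReflTransGen (Av E W) (v m) (v 0) ∨
      (0 < m ∧ E (v (m - 1)) (v m) ∧ T (Av E W) (v 0) (v m)) := by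
  induction m with
  | zero => exact Or.inl .refl
  | succ m ih =>
    have ih' := ih (fun l hl => hadj l (by omega))
      (fun l hl => hcol l ⟨hl.1, by have := hl.2.1; omega, hl.2.2⟩) (fun l hl => hW l (by omega))
    rcases hadj m (by omega) with h | h
    · right
      refine ⟨by omega, by simpa using h, ?_⟩
      have hT : T (Av E W) (v 0) (v m) := by
        rcases ih' with h1 | h1
        · exact ⟨v m, h1, .refl⟩
        · exact h1.2.2
      obtain ⟨s, h1, h2⟩ := hT
      exact ⟨s, h1, h2.tail ⟨h, hW m (by omega), hW (m + 1) le_rfl⟩⟩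
    · rcases ih' with h1 | h1
      · left
        exact ReflTransGen.head ⟨h, hW (m + 1) le_rfl, hW m (by omega)⟩ h1
      · exact absurd ⟨h1.1, by omega, h1.2.1, h⟩ (hcol m)

theorem state_T (W : Set V) (v : ℕ → V) (m : ℕ)
    (hadj : ∀ l, l < m → E (v l) (v (l + 1)) ∨ E (v (l + 1)) (v l))
    (hcol : ∀ l, ¬ IsCollider E m v l) (hW : ∀ l, l ≤ m → v l ∉ W) :
    T (Av E W) (v 0) (v m) := by
  rcases state W v m hadj hcol hW with h | h
  · exact ⟨v m, h, .refl⟩
  · exact h.2.2

/-- Reversal of paths. -/
theorem IsPath.reverse {a b : V} {m : ℕ} {v : ℕ → V} (h : IsPath E a b m v) :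
    IsPath E b a m (fun l => v (m - l)) where
  start := by simpa using h.stop
  stop := by simpa using h.start
  inj := by
    intro l hl l' hl' he
    have := h.inj (show m - l ∈ Set.Iic m by simp) (show m - l' ∈ Set.Iic m by simp) he
    simp only [Set.mem_Iic] at hl hl'
    omega
  adj := by
    intro l hl
    have := h.adj (m - (l + 1)) (by omega)
    rw [show m - (l + 1) + 1 = m - l by omega] at this
    exact this.symm

theorem collider_reverse {m : ℕ} {v : ℕ → V} {l : ℕ}
    (h : IsCollider E m (fun l => v (m - l)) l) : IsCollider E m v (m - l) := by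
  obtain ⟨h1, h2, h3, h4⟩ := h
  refine ⟨by omega, by omega, ?_, ?_⟩
  · rw [show m - l - 1 = m - (l + 1) by omega]; exact h4
  · rw [show m - l + 1 = m - (l - 1) by omega]; exact h3

theorem nonCollider_reverse {m : ℕ} {v : ℕ → V} {l : ℕ}
    (h : IsNonCollider E m (fun l => v (m - l)) l) : IsNonCollider E m v (m - l) := by
  obtain ⟨h1, h2, h3⟩ := h
  refine ⟨by omega, by omega, fun h => h3 ?_⟩
  rw [show m - l - 1 = m - (l + 1) by omega, show m - l + 1 = m - (l - 1) by omega] at h
  exact ⟨h.2, h.1⟩

theorem DSeparates.symm {C : Finset V} {a b : V} (h : DSeparates E C a b) :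
    DSeparates E C b a := by
  intro m v hv
  rcases h m _ hv.reverse with ⟨l, hl, hC⟩ | ⟨l, hl, hC⟩
  · exact Or.inl ⟨m - l, nonCollider_reverse hl, hC⟩
  · exact Or.inr ⟨m - l, collider_reverse hl, hC⟩

/-- Adjacent vertices are not d-separated by any set. -/
theorem not_dSeparates_of_edge {C : Finset V} {a b : V} (hab : a ≠ b) (h : E a b) :
    ¬ DSeparates E C a b := by
  intro hd
  have hp : IsPath E a b 1 (fun l => if l = 0 then a else b) := by
    refine ⟨by simp, by simp, ?_, ?_⟩
    · intro l hl l' hl' he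
      simp only [Set.mem_Iic] at hl hl'
      interval_cases l <;> interval_cases l' <;> simp_all
    · intro l hl
      interval_cases l
      simp [h]
  rcases hd 1 _ hp with ⟨l, hl, _⟩ | ⟨l, hl, _⟩
  · have := hl.1; have := hl.2.1; omega
  · have := hl.1; have := hl.2.1; omega

/-- If the empty set does not d-separate `a` and `b` there is a path without colliders. -/
theorem exists_trek {a b : V} (h : ¬ DSeparates E ∅ a b) :
    ∃ m v, IsPath E a b m v ∧ ∀ l, ¬ IsCollider E m v l := by
  unfold DSeparates at h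
  push Not at h
  obtain ⟨m, v, hv, _, h2⟩ := h
  refine ⟨m, v, hv, fun l hl => ?_⟩
  obtain ⟨x, hx, _⟩ := h2 l hl
  simp at hx

/-- The first half of an open path with a collider. -/
theorem half {c : V} {m : ℕ} {v : ℕ → V}
    (hadj : ∀ l, l < m → E (v l) (v (l + 1)) ∨ E (v (l + 1)) (v l)) (h0 : v 0 ≠ c)
    (hnon : ∀ l, IsNonCollider E m v l → v l ≠ c)
    (hcol : ∀ l, IsCollider E m v l → ReflTransGen E (v l) c)
    (hex : ∃ l, IsCollider E m v l) :
    T (fun x y => E x y ∧ x ≠ c) (v 0) c := by
  classical
  have hl := Nat.find_spec hex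
  have hmin : ∀ t, t < Nat.find hex → ¬ IsCollider E m v t := fun t ht => Nat.find_min hex ht
  generalize Nat.find hex = l at hl hmin
  obtain ⟨hl0, hlm, hl1, hl2⟩ := hl
  have hav : ∀ t, t ≤ l - 1 → v t ∉ ({c} : Set V) := by
    intro t ht
    rw [Set.mem_singleton_iff]
    rcases Nat.eq_zero_or_pos t with rfl | htp
    · exact h0
    · refine hnon t ⟨htp, by omega, fun h => hmin t (by omega) ⟨htp, by omega, h⟩⟩
  obtain ⟨s, hs1, hs2⟩ := state_T ({c} : Set V) v (l - 1) (fun t ht => hadj t (by omega))
    (fun t ht => hmin t (by have := ht.2.1; omega) ⟨ht.1, by have := ht.2.1; omega, ht.2.2⟩) hav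
  have hmono : ∀ x y, Av E ({c} : Set V) x y → (E x y ∧ x ≠ c) := fun x y h => ⟨h.1, h.2.1⟩
  refine ⟨s, rmono hmono hs1, ?_⟩
  have h3 : ReflTransGen (fun x y => E x y ∧ x ≠ c) s (v l) :=
    (rmono hmono hs2).tail ⟨hl1, by simpa using hav (l - 1) le_rfl⟩
  refine h3.trans ?_
  have h4 : ∀ x, ReflTransGen E x c → ReflTransGen (fun x y => E x y ∧ x ≠ c) x c := by
    intro x hx
    induction hx using ReflTransGen.head_induction_on with
    | refl => exact .refl
    | @head a b hab _ ih =>
      by_cases hac : a = c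
      · rw [hac]
      · exact ReflTransGen.head ⟨hab, hac⟩ ih
  exact h4 _ (hcol l ⟨hl0, hlm, hl1, hl2⟩)

/-- If `{c}` does not d-separate `a` and `b` then one of two relations `R ≤ E` shows it. -/
theorem open_path {a b c : V} (hac : a ≠ c) (hbc : b ≠ c)
    (h : ¬ DSeparates E {c} a b) :
    ∃ R : V → V → Prop, (∀ x y, R x y → E x y) ∧
      ¬ (T R a b ↔ (T R a c ∧ T R c b)) := by
  by_cases hA : T (Av E ({c} : Set V)) a b
  · refine ⟨Av E ({c} : Set V), fun x y h => h.1, fun hiff => ?_⟩
    exact hac (T_isolated (Set.mem_singleton c) (hiff.1 hA).1)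
  · unfold DSeparates at h
    push Not at h
    obtain ⟨m, v, hv, h1, h2⟩ := h
    have h1' : ∀ l, IsNonCollider E m v l → v l ≠ c := by
      intro l hl; simpa using h1 l hl
    have h2' : ∀ l, IsCollider E m v l → ReflTransGen E (v l) c := by
      intro l hl
      obtain ⟨x, hx, h3⟩ := h2 l hl
      rw [Finset.mem_singleton] at hx
      rwa [hx] at h3
    have hex : ∃ l, IsCollider E m v l := by
      by_contra hno
      push Not at hno
      apply hA
      have := state_T ({c} : Set V) v m hv.adj hno (fun l hl => by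
        rw [Set.mem_singleton_iff]
        rcases Nat.eq_zero_or_pos l with rfl | hlp
        · rw [hv.start]; exact hac
        · rcases Nat.lt_or_ge l m with hlm | hlm
          · exact h1' l ⟨hlp, hlm, fun h => hno l ⟨hlp, hlm, h⟩⟩
          · rw [show l = m by omega, hv.stop]; exact hbc)
      rwa [hv.start, hv.stop] at this
    refine ⟨fun x y => E x y ∧ x ≠ c, fun x y h => h.1, fun hiff => ?_⟩
    have hb : T (fun x y => E x y ∧ x ≠ c) a c := by
      have := half (c := c) hv.adj (by rw [hv.start]; exact hac) h1' h2' hex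
      rwa [hv.start] at this
    have hb' : T (fun x y => E x y ∧ x ≠ c) c b := by
      have hr := hv.reverse
      have := half (c := c) hr.adj (by rw [hr.start]; exact hbc)
        (fun l hl => h1' _ (nonCollider_reverse hl)) (fun l hl => h2' _ (collider_reverse hl))
        (by
          obtain ⟨l, hl⟩ := hex
          refine ⟨m - l, ?_⟩
          obtain ⟨h3, h4, h5, h6⟩ := hl
          refine ⟨by omega, by omega, ?_, ?_⟩
          · show E (v (m - (m - l - 1))) (v (m - (m - l)))
            rw [show m - (m - l - 1) = l + 1 by omega, show m - (m - l) = l by omega]; exact h6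
          · show E (v (m - (m - l + 1))) (v (m - (m - l)))
            rw [show m - (m - l + 1) = l - 1 by omega, show m - (m - l) = l by omega]; exact h5)
      rw [hr.start] at this
      exact T_symm this
    obtain ⟨s, hs1, hs2⟩ := hiff.2 ⟨hb, hb'⟩
    apply hA
    have hav : ∀ z, z ≠ c → ∀ x, ReflTransGen (fun x y => E x y ∧ x ≠ c) x z →
        x ≠ c ∧ ReflTransGen (Av E ({c} : Set V)) x z := by
      intro z hz x hx
      induction hx using ReflTransGen.head_induction_on with
      | refl => exact ⟨hz, .refl⟩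
      | head hab _ ih => exact ⟨hab.2, ReflTransGen.head ⟨hab.1, hab.2, ih.1⟩ ih.2⟩
    exact ⟨s, (hav a hac s hs1).2, (hav b hbc s hs2).2⟩

/-- The first parent of `j` on a trek. -/
theorem first_parent {i j : V} (hji : ¬ ReflTransGen E j i) (hjj : ¬ E j j)
    (h : ¬ DSeparates E ∅ i j) :
    ∃ p, E p j ∧ T (Av E {q | E q j ∧ q ≠ p}) i p ∧ T (Av E {q | E q j ∧ q ≠ p}) i j := by
  classical
  obtain ⟨m, v, hv, hcol⟩ := exists_trek h
  have hst := state (∅ : Set V) v m hv.adj hcol (fun l _ => Set.notMem_empty _)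
  have hlast : 0 < m ∧ E (v (m - 1)) j := by
    rcases hst with h | h
    · rw [hv.start, hv.stop] at h
      exact absurd (rmono (fun x y h => h.1) h) hji
    · rw [hv.stop] at h
      exact ⟨h.1, h.2.1⟩
  have hex : ∃ l, E (v l) j := ⟨m - 1, hlast.2⟩
  have hl := Nat.find_spec hex
  have hle : Nat.find hex ≤ m - 1 := Nat.find_min' hex hlast.2
  have hmin : ∀ t, t < Nat.find hex → ¬ E (v t) j := fun t ht => Nat.find_min hex ht
  generalize Nat.find hex = l at hl hle hmin
  have hT := state_T {q | E q j ∧ q ≠ v l} v l (fun t ht => hv.adj t (by omega))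
    (fun t ht => hcol t ⟨ht.1, by have := ht.2.1; omega, ht.2.2⟩)
    (fun t ht => by
      rcases Nat.lt_or_ge t l with h1 | h1
      · exact fun h2 => hmin t h1 h2.1
      · rw [show t = l by omega]; exact fun h2 => h2.2 rfl)
  rw [hv.start] at hT
  refine ⟨v l, hl, hT, ?_⟩
  obtain ⟨s, hs1, hs2⟩ := hT
  exact ⟨s, hs1, hs2.tail ⟨hl, fun h => h.2 rfl, fun h => hjj h.1⟩⟩

end paths

/-! ### Points of the model -/

section points

variable [Fintype V] {E : V → V → Prop}

/-- The number of proper ancestors: a topological order. -/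
noncomputable def rk (E : V → V → Prop) (v : V) : ℕ := {u | TransGen E u v}.ncard

theorem rk_lt (hE : Acyclic E) {u v : V} (h : E u v) : rk E u < rk E v := by
  apply Set.ncard_lt_ncard _ (Set.toFinite _)
  refine ⟨fun w hw => TransGen.tail hw h, fun hs => ?_⟩
  exact hE u (hs (TransGen.single h))

variable [DecidableEq V]

theorem pow_ne {L : Matrix V V ℝ} (hE : Acyclic E) (hL : ∀ u v, ¬ E u v → L u v = 0) (k : ℕ) :
    ∀ u v, (L ^ k) u v ≠ 0 → ReflTransGen E u v ∧ rk E u + k ≤ rk E v := by
  induction k with
  | zero =>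
    intro u v h
    rw [pow_zero, Matrix.one_apply] at h
    by_cases huv : u = v
    · subst huv; exact ⟨.refl, by simp⟩
    · simp [huv] at h
  | succ k ih =>
    intro u v h
    rw [pow_succ, Matrix.mul_apply] at h
    obtain ⟨t, _, ht⟩ := Finset.exists_ne_zero_of_sum_ne_zero h
    have h1 := ih u t (left_ne_zero_of_mul ht)
    have h2 : E t v := by
      by_contra hn
      exact right_ne_zero_of_mul ht (hL t v hn)
    exact ⟨h1.1.tail h2, by have := rk_lt hE h2; omega⟩

theorem exists_pow_zero {L : Matrix V V ℝ} (hE : Acyclic E)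
    (hL : ∀ u v, ¬ E u v → L u v = 0) : ∃ K, L ^ K = 0 := by
  refine ⟨Fintype.card V + 1, ?_⟩
  ext u v
  by_contra h
  have h1 := (pow_ne hE hL _ u v h).2
  have h2 : rk E v ≤ Fintype.card V := by
    unfold rk
    rw [← Nat.card_eq_fintype_card]
    exact Set.ncard_le_card _
  omega

/-- The matrix `(1 - L)⁻¹`. -/
theorem inv_facts {L : Matrix V V ℝ} (hE : Acyclic E) (hL : ∀ u v, ¬ E u v → L u v = 0) :
    (1 - L)⁻¹ * (1 - L) = 1 ∧ (∀ u v, (1 - L)⁻¹ u v ≠ 0 → ReflTransGen E u v) ∧
      ((∀ u v, 0 ≤ L u v) → ∀ u v, 0 ≤ (1 - L)⁻¹ u v) := by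
  obtain ⟨K, hK⟩ := exists_pow_zero hE hL
  have h1 : (1 - L) * ∑ i ∈ Finset.range K, L ^ i = 1 := by
    rw [mul_neg_geom_sum, hK, sub_zero]
  have h2 : (∑ i ∈ Finset.range K, L ^ i) * (1 - L) = 1 := by
    rw [geom_sum_mul_neg, hK, sub_zero]
  have h3 : (1 - L)⁻¹ = ∑ i ∈ Finset.range K, L ^ i := Matrix.inv_eq_right_inv h1
  refine ⟨by rw [h3, h2], ?_, ?_⟩
  · intro u v h
    rw [h3, Matrix.sum_apply] at h
    obtain ⟨k, _, hk⟩ := Finset.exists_ne_zero_of_sum_ne_zero h
    exact (pow_ne hE hL k u v hk).1
  · intro hpos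
    have hp : ∀ k u v, 0 ≤ (L ^ k) u v := by
      intro k
      induction k with
      | zero =>
        intro u v
        rw [pow_zero, Matrix.one_apply]
        split_ifs <;> norm_num
      | succ k ih =>
        intro u v
        rw [pow_succ, Matrix.mul_apply]
        exact Finset.sum_nonneg fun t _ => mul_nonneg (ih u t) (hpos t v)
    intro u v
    rw [h3, Matrix.sum_apply]
    exact Finset.sum_nonneg fun k _ => hp k u v

/-- For `R ≤ E` there is a point of the model whose coordinate `σ_uv` is nonzero exactly if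
`u` and `v` have a common ancestor in `R`. -/
theorem exists_point (hE : Acyclic E) {R : V → V → Prop} (hR : ∀ u v, R u v → E u v) :
    ∃ y ∈ model E, ∀ u v, y s(u, v) ≠ 0 ↔ T R u v := by
  classical
  have hRa : Acyclic R := by
    intro v hv
    have : ∀ w, TransGen R v w → TransGen E v w := by
      intro w hw
      induction hw with
      | single h => exact .single (hR _ _ h)
      | tail _ h2 ih => exact ih.tail (hR _ _ h2)
    exact hE v (this v hv)
  set L : Matrix V V ℝ := fun u v => if R u v then 1 else 0 with hLdef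
  have hLR : ∀ u v, ¬ R u v → L u v = 0 := fun u v h => by simp [hLdef, h]
  have hLE : ∀ u v, ¬ E u v → L u v = 0 := fun u v h => hLR u v fun h' => h (hR u v h')
  have hLp : ∀ u v, 0 ≤ L u v := fun u v => by simp only [hLdef]; split_ifs <;> norm_num
  obtain ⟨h1, h2, h3⟩ := inv_facts hRa hLR
  have h3 := h3 hLp
  set N := (1 - L)⁻¹ with hN
  have hrec : ∀ u v, N u v = (1 : Matrix V V ℝ) u v + ∑ t, N u t * L t v := by
    intro u v
    have : N = 1 + N * L := by
      rw [mul_sub, mul_one] at h1
      rw [← h1]; abel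
    conv_lhs => rw [this]
    rw [Matrix.add_apply, Matrix.mul_apply]
  have hNpos : ∀ u v, ReflTransGen R u v → 0 < N u v := by
    intro u v h
    induction h with
    | refl =>
      rw [hrec, Matrix.one_apply_eq]
      have : 0 ≤ ∑ t, N u t * L t u := Finset.sum_nonneg fun t _ => mul_nonneg (h3 _ _) (hLp _ _)
      linarith
    | @tail b d _ hbd ih =>
      rw [hrec]
      have h4 : 0 ≤ (1 : Matrix V V ℝ) u d := by
        rw [Matrix.one_apply]; split_ifs <;> norm_num
      have h5 : 0 < ∑ t, N u t * L t d := by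
        refine Finset.sum_pos' (fun t _ => mul_nonneg (h3 _ _) (hLp _ _)) ⟨b, Finset.mem_univ _, ?_⟩
        have : L b d = 1 := by simp [hLdef, hbd]
        rw [this, mul_one]
        exact ih
      linarith
  have hcov : ∀ u v, cov L (fun _ => 1) u v = ∑ s, N s u * N s v := by
    intro u v
    unfold cov
    rw [← hN, Matrix.diagonal_one, mul_one, Matrix.mul_apply]
    rfl
  have hsymm : ∀ u v, cov L (fun _ => 1) u v = cov L (fun _ => 1) v u := by
    intro u v
    rw [hcov, hcov]
    exact Finset.sum_congr rfl fun s _ => mul_comm _ _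
  refine ⟨Sym2.lift ⟨fun u v => cov L (fun _ => 1) u v, hsymm⟩,
    ⟨L, fun _ => 1, hLE, fun _ => one_pos, fun u v => rfl⟩, fun u v => ?_⟩
  show cov L (fun _ => 1) u v ≠ 0 ↔ _
  rw [hcov]
  constructor
  · intro h
    obtain ⟨s, _, hs⟩ := Finset.exists_ne_zero_of_sum_ne_zero h
    exact ⟨s, h2 s u (left_ne_zero_of_mul hs), h2 s v (right_ne_zero_of_mul hs)⟩
  · rintro ⟨s, hs1, hs2⟩
    refine (Finset.sum_pos' (fun t _ => mul_nonneg (h3 _ _) (h3 _ _)) ⟨s, Finset.mem_univ _, ?_⟩).ne'
    exact mul_pos (hNpos s u hs1) (hNpos s v hs2)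

/-- The local Markov property. -/
theorem markov (hE : Acyclic E) {y : Sym2 V → ℝ} (hy : y ∈ model E) (j : V) :
    ∃ l : V → ℝ, (∀ p, ¬ E p j → l p = 0) ∧
      ∀ x, ¬ ReflTransGen E j x → y s(x, j) = ∑ p, y s(x, p) * l p := by
  obtain ⟨L, w, hL, _, hyL⟩ := hy
  refine ⟨fun p => L p j, fun p hp => hL p j hp, fun x hx => ?_⟩
  obtain ⟨h1, h2, _⟩ := inv_facts hE hL
  have h3 : cov L w * (1 - L) = ((1 - L)⁻¹).transpose * Matrix.diagonal w := by
    unfold cov
    rw [mul_assoc, h1, mul_one]
  have h4 : (cov L w * (1 - L)) x j = 0 := by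
    rw [h3, Matrix.mul_diagonal, Matrix.transpose_apply]
    have : (1 - L)⁻¹ j x = 0 := by
      by_contra h
      exact hx (h2 j x h)
    rw [this, zero_mul]
  rw [mul_sub, mul_one, Matrix.sub_apply, Matrix.mul_apply, sub_eq_zero] at h4
  rw [hyL, h4]
  exact Finset.sum_congr rfl fun p _ => by rw [hyL]

end points

/-! ### The determinant -/

section main

open MvPolynomial

variable [Fintype V] [DecidableEq V] {E : V → V → Prop}

/-- The main step: `i` is no descendant and no parent of `j`. -/
theorem main (hE : Acyclic E) {i j : V} (hji : ¬ ReflTransGen E j i)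
    (hnij : ¬ E i j) (hbin : GeneratedByBinomials (gaussianIdeal E)) :
    DSeparates E ∅ i j ∨ ∃ c, c ≠ i ∧ c ≠ j ∧ DSeparates E {c} i j := by
  classical
  by_contra hcon
  push Not at hcon
  obtain ⟨h0, h1⟩ := hcon
  have hjj : ¬ E j j := fun h => hE j (.single h)
  obtain ⟨p, hpj, hTp, hTj⟩ := first_parent hji hjj h0
  let row : Option {q // E q j} → V := fun r => r.elim i (fun q => q.1)
  let col : Option {q // E q j} → V := fun r => r.elim j (fun q => q.1)
  have hrow_inj : ∀ r (q : {q // E q j}), row r = q.1 → r = some q := by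
    intro r q h
    rcases r with _ | q'
    · have h' : i = q.1 := h
      exact absurd (by rw [h']; exact q.2) hnij
    · have h' : q'.1 = q.1 := h
      rw [Subtype.ext h']
  have hcol_inj : ∀ r (q : {q // E q j}), col r = q.1 → r = some q := by
    intro r q h
    rcases r with _ | q'
    · have h' : j = q.1 := h
      have h2 := q.2
      rw [← h'] at h2
      exact absurd h2 hjj
    · have h' : q'.1 = q.1 := h
      rw [Subtype.ext h']
  have hrow_anc : ∀ r, ¬ ReflTransGen E j (row r) := by
    intro r h
    rcases r with _ | q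
    · exact hji h
    · exact hE j (TransGen.tail' h q.2)
  let M : Matrix (Option {q // E q j}) (Option {q // E q j}) (MvPolynomial (Sym2 V) ℝ) :=
    fun r c => X s(row r, col c)
  -- the determinant vanishes on the model
  have hdet : M.det ∈ gaussianIdeal E := by
    unfold gaussianIdeal
    rw [mem_vanishingIdeal_iff]
    intro y hy
    obtain ⟨l, hl, hl2⟩ := markov hE hy j
    rw [AlgHom.map_det]
    apply Matrix.exists_mulVec_eq_zero_iff.1
    refine ⟨fun r => r.elim 1 (fun q => - l q.1), fun h => ?_, ?_⟩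
    · have := congrFun h none
      simp at this
    · funext r
      show ∑ c, aeval y (M r c) * _ = 0
      rw [Fintype.sum_option]
      have e1 : ∀ c, aeval y (M r c) = y s(row r, col c) := fun c => aeval_X _ _
      simp only [e1, Option.elim_none, Option.elim_some, mul_one, mul_neg, Finset.sum_neg_distrib]
      have e2 := hl2 (row r) (hrow_anc r)
      show y s(row r, j) + -∑ q : {q // E q j}, y s(row r, q.1) * l q.1 = 0
      rw [e2, ← Finset.sum_subtype (Finset.univ.filter (fun q => E q j)) (by simp)
        (fun q => y s(row r, q) * l q), Finset.sum_filter_of_ne]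
      · ring
      · intro q _ hq
        by_contra hn
        exact hq (by rw [hl q hn, mul_zero])
  -- its terms
  let mon : Equiv.Perm (Option {q // E q j}) → Sym2 V →₀ ℕ :=
    fun π => ∑ r, Finsupp.single s(row (π r), col r) 1
  have hmon : ∀ π (e : Sym2 V), mon π e ≠ 0 ↔ ∃ r, s(row (π r), col r) = e := by
    intro π e
    simp only [mon, Finsupp.finsetSum_apply, Finsupp.single_apply]
    rw [Ne, Finset.sum_eq_zero_iff]
    push Not
    simp
  have hprod : ∀ π, ∏ r, M (π r) r = monomial (mon π) 1 := by
    intro π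
    rw [monomial_sum_one]
    rfl
  have hexp : ∀ u, M.det.coeff u =
      ∑ π : Equiv.Perm (Option {q // E q j}),
        if mon π = u then ((Equiv.Perm.sign π : ℤ) : ℝ) else 0 := by
    intro u
    rw [Matrix.det_apply', coeff_sum]
    refine Finset.sum_congr rfl fun π _ => ?_
    rw [hprod]
    have : (((Equiv.Perm.sign π : ℤ) : MvPolynomial (Sym2 V) ℝ)) =
        C ((Equiv.Perm.sign π : ℤ) : ℝ) := by simp
    rw [this, C_mul_monomial, mul_one, coeff_monomial]
  have hone : ∀ π, mon π = mon 1 → π = 1 := by
    intro π h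
    have hfix : ∀ q : {q // E q j}, π (some q) = some q := by
      intro q
      have h2 : mon 1 s(q.1, q.1) ≠ 0 := (hmon 1 _).2 ⟨some q, rfl⟩
      rw [← h, hmon] at h2
      obtain ⟨r, hr⟩ := h2
      rw [Sym2.eq_iff] at hr
      have hr' : row (π r) = q.1 ∧ col r = q.1 := by
        rcases hr with h | h <;> exact h
      have e1 := hcol_inj r q hr'.2
      have e2 := hrow_inj _ q hr'.1
      rwa [e1] at e2
    ext1 r
    rcases r with _ | q
    · rcases hn : π none with _ | q
      · rfl
      · have := π.injective (hn.trans (hfix q).symm)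
        simp at this
    · exact hfix q
  have hcoef : M.det.coeff (mon 1) ≠ 0 := by
    rw [hexp, Finset.sum_eq_single (1 : Equiv.Perm (Option {q // E q j}))]
    · simp
    · intro π _ hπ
      rw [if_neg fun h => hπ (hone π h)]
    · intro h; exact absurd (Finset.mem_univ _) h
  have heval : ∀ (y : Sym2 V → ℝ) π a, aeval y (monomial (mon π) a) =
      a * ∏ r, y s(row (π r), col r) := by
    intro y π a
    have : (monomial (mon π) a : MvPolynomial (Sym2 V) ℝ) = C a * ∏ r, M (π r) r := by
      rw [hprod, C_mul_monomial, mul_one]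
    rw [this, map_mul, map_prod, algHom_C]
    congr 1
    exact Finset.prod_congr rfl fun r _ => aeval_X _ _
  have hTR : ∀ {R : V → V → Prop}, (∀ u v, R u v → E u v) →
      ∃ y ∈ model E, ∀ π : Equiv.Perm (Option {q // E q j}),
        (∏ r, y s(row (π r), col r) ≠ 0 ↔ ∀ r, T R (row (π r)) (col r)) := by
    intro R hR
    obtain ⟨y, hy, hy2⟩ := exists_point hE hR
    refine ⟨y, hy, fun π => ?_⟩
    rw [Finset.prod_ne_zero_iff]
    simp [hy2]
  have hI : monomial (mon 1) (1 : ℝ) ∉ gaussianIdeal E := by
    intro h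
    unfold gaussianIdeal at h
    rw [mem_vanishingIdeal_iff] at h
    obtain ⟨y, hy, hy2⟩ := hTR (R := E) fun u v h => h
    have h3 := h y hy
    rw [heval, one_mul] at h3
    refine (hy2 1).2 ?_ h3
    intro r
    rcases r with _ | q
    · exact T_mono (fun u v h => h.1) hTj
    · exact T_refl _ _
  obtain ⟨m', hm', hcm', κ, hκ, hrel⟩ := exists_partner _ hbin _ hdet _ hcoef hI
  obtain ⟨π, hπ⟩ : ∃ π, mon π = m' := by
    rw [hexp] at hcm'
    obtain ⟨π, _, hπ⟩ := Finset.exists_ne_zero_of_sum_ne_zero hcm'
    refine ⟨π, ?_⟩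
    by_contra hn
    rw [if_neg hn] at hπ
    exact hπ rfl
  subst hπ
  have hπ1 : π ≠ 1 := fun h => hm' (by rw [h])
  have hiff : ∀ {R : V → V → Prop}, (∀ u v, R u v → E u v) →
      ((∀ r, T R (row r) (col r)) ↔ ∀ r, T R (row (π r)) (col r)) := by
    intro R hR
    obtain ⟨y, hy, hy2⟩ := hTR hR
    have h3 := (mem_vanishingIdeal_iff.1 hrel) y hy
    rw [map_sub, heval, heval, one_mul, sub_eq_zero] at h3
    have h4 := hy2 1
    rw [← hy2 π]
    have h5 : (∀ r, T R (row r) (col r)) ↔
        ∏ r, y s(row ((1 : Equiv.Perm (Option {q // E q j})) r), col r) ≠ 0 := h4.symm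
    rw [h5, h3]
    exact ⟨fun h => right_ne_zero_of_mul h, fun h => mul_ne_zero hκ h⟩
  -- the permutation is a transposition
  have hW : ∀ r, T (Av E {q | E q j ∧ q ≠ p}) (row (π r)) (col r) := by
    refine (hiff fun u v h => h.1).1 fun r => ?_
    rcases r with _ | q
    · exact hTj
    · exact T_refl _ _
  have hfix : ∀ q : {q // E q j}, q.1 ≠ p → π (some q) = some q := by
    intro q hq
    have h2 := T_isolated (show col (some q) ∈ {q | E q j ∧ q ≠ p} from ⟨q.2, hq⟩) (hW (some q))
    exact hrow_inj _ q h2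
  have hcase : ∀ r, (r = none ∨ r = some ⟨p, hpj⟩) → (π r = none ∨ π r = some ⟨p, hpj⟩) := by
    intro r hr
    rcases hn : π r with _ | q
    · exact Or.inl rfl
    · right
      by_cases hq : q.1 = p
      · exact congrArg some (Subtype.ext hq)
      · have := π.injective (hn.trans (hfix q hq).symm)
        rcases hr with hr | hr
        · rw [hr] at this; simp at this
        · rw [hr] at this
          exact absurd (congrArg Subtype.val (Option.some.inj this)).symm hq
  have hsw : π none = some ⟨p, hpj⟩ := by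
    rcases hcase none (Or.inl rfl) with h | h
    · exfalso
      apply hπ1
      ext1 r
      rcases r with _ | q
      · exact h
      · by_cases hq : q.1 = p
        · have hq' : q = ⟨p, hpj⟩ := Subtype.ext hq
          rcases hcase (some q) (Or.inr (congrArg some hq')) with h2 | h2
          · have := π.injective (h2.trans h.symm)
            simp at this
          · rw [h2, hq']; rfl
        · exact hfix q hq
    · exact h
  have hsw2 : π (some ⟨p, hpj⟩) = none := by
    rcases hcase (some ⟨p, hpj⟩) (Or.inr rfl) with h | h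
    · exact h
    · have := π.injective (h.trans hsw.symm)
      simp at this
  have hpi : p ≠ i := fun h => hnij (h ▸ hpj)
  have hpj' : p ≠ j := fun h => hjj (h ▸ hpj)
  obtain ⟨R, hR, hne⟩ := open_path (Ne.symm hpi) (Ne.symm hpj') (h1 p hpi hpj')
  apply hne
  constructor
  · intro h
    have h2 := (hiff hR).1 (by
      intro r
      rcases r with _ | q
      · exact h
      · exact T_refl _ _)
    have h3 := h2 none
    have h4 := h2 (some ⟨p, hpj⟩)
    rw [hsw] at h3
    rw [hsw2] at h4
    exact ⟨h4, h3⟩
  · rintro ⟨h4, h3⟩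
    refine (hiff hR).2 ?_ none
    intro r
    rcases r with _ | q
    · rw [hsw]; exact h3
    · by_cases hq : q.1 = p
      · have hq' : q = ⟨p, hpj⟩ := Subtype.ext hq
        rw [hq', hsw2]; exact h4
      · rw [hfix q hq]; exact T_refl _ _

end main

/-- **The theorem.** If some two vertices `i, j` of a DAG have a d-separating set and the smallest
size of such a set is at least `2`, then the vanishing ideal of the Gaussian DAG model is not
toric; indeed it is not generated by polynomials with at most two terms. -/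
theorem result {n : ℕ} (E : Fin n → Fin n → Prop) (hE : Acyclic E) (i j : Fin n) (hij : i ≠ j)
    (k : ℕ) (hk : IsLeast {k | ∃ C : Finset (Fin n), i ∉ C ∧ j ∉ C ∧ DSeparates E C i j ∧
      C.card = k} k) (h2 : 2 ≤ k) :
    ¬ IsToric (gaussianIdeal E) ∧ ¬ GeneratedByBinomials (gaussianIdeal E) := by
  have hmain : ¬ GeneratedByBinomials (gaussianIdeal E) := by
    intro hbin
    obtain ⟨⟨C, _, _, hC, _⟩, hmin⟩ := hk
    have hnij : ¬ E i j := fun h => not_dSeparates_of_edge hij h hC
    have hnji : ¬ E j i := fun h => not_dSeparates_of_edge hij.symm h hC.symm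
    have hcon : ¬ (DSeparates E ∅ i j ∨ ∃ c, c ≠ i ∧ c ≠ j ∧ DSeparates E {c} i j) := by
      rintro (h | ⟨c, hci, hcj, h⟩)
      · have := hmin ⟨∅, by simp, by simp, h, rfl⟩
        simp at this
        omega
      · have := hmin ⟨{c}, by simpa using hci.symm, by simpa using hcj.symm, h, rfl⟩
        simp at this
        omega
    by_cases hji : ReflTransGen E j i
    · have hij' : ¬ ReflTransGen E i j := by
        intro h
        rcases reflTransGen_iff_eq_or_transGen.1 hji with h3 | h3
        · exact hij h3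
        · exact hE j (h3.trans_left h)
      apply hcon
      rcases main hE hij' hnji hbin with h | ⟨c, hc1, hc2, h⟩
      · exact Or.inl h.symm
      · exact Or.inr ⟨c, hc2, hc1, h.symm⟩
    · exact hcon (main hE hji hnij hbin)
  exact ⟨fun h => hmain h.2, hmain⟩

end Pool.Agent.Results.MP_3a69bf_ag.LargeSeparators
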